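import Pool.Agent.H54.WM.Targets

/-!
# NA: a cardinal of HOD
-/

open Ordinal Cardinal Order Set
open scoped ZFSet

universe u

namespace Pool.Agent.H34.WM.NA

open _root_.HD Pool.Agent.H54.WM

theorem tr {ξ : Ordinal.{u}} {M : ZFSet.{u} → Prop} {j : ZFSet.{u} → ZFSet.{u}}
    (h : CEmb ξ M j) {P : (ℕ → ZFSet.{u}) → Prop} (hP : D0 P) (v : ℕ → ZFSet.{u})
    (hv : ∀ n, HOD (v n)) : P v ↔ P (j ∘ v) := by
  obtain ⟨φ, hφ⟩ := hP
  rw [hφ HOD HOD_tra v hv, h.elem φ v hv, ← hφ M h.tra (j ∘ v) fun n => h.map _ (hv n)]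

theorem hod_sv {l : List ZFSet.{u}} (hl : ∀ x ∈ l, HOD x) (n : ℕ) : HOD (sv l n) := by
  induction l generalizing n with
  | nil => simpa [sv] using hod_empty
  | cons x l ih =>
    rcases n with _ | n
    · exact hl x (by simp)
    · exact ih (fun y hy => hl y (by simp [hy])) n

theorem j_mem {ξ : Ordinal.{u}} {M : ZFSet.{u} → Prop} {j : ZFSet.{u} → ZFSet.{u}}
    (h : CEmb ξ M j) {x y : ZFSet.{u}} (hx : HOD x) (hy : HOD y) : x ∈ y ↔ j x ∈ j y :=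
  tr h (D0.mem 0 1) (sv [x, y]) (hod_sv (by
    intro z hz
    simp only [List.mem_cons, List.not_mem_nil, or_false] at hz
    rcases hz with rfl | rfl
    exacts [hx, hy]))

theorem j_pair {ξ : Ordinal.{u}} {M : ZFSet.{u} → Prop} {j : ZFSet.{u} → ZFSet.{u}}
    (h : CEmb ξ M j) {x y : ZFSet.{u}} (hx : HOD x) (hy : HOD y) :
    j (ZFSet.pair x y) = ZFSet.pair (j x) (j y) :=
  (tr h (D0.pair 0 1 2) (sv [ZFSet.pair x y, x, y]) (hod_sv (by
    intro z hz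
    simp only [List.mem_cons, List.not_mem_nil, or_false] at hz
    rcases hz with rfl | rfl | rfl
    exacts [hx.pair hy, hx, hy]))).1 rfl

/-- every element of `v 0` is the second coordinate of a pair in `v 1` with first coordinate
in `v 2` -/
def P1 (X f G : ZFSet.{u}) : Prop :=
  ∀ c ∈ X, ∃ p ∈ f, ∃ a b, p = ZFSet.pair a b ∧ (a ∈ G ∧ b = c)

theorem d0_P1 : D0.{u} fun v => P1 (v 0) (v 1) (v 2) := by
  refine D0.allMem (R := fun c v => ∃ p ∈ v 1, ∃ a b, p = ZFSet.pair a b ∧ (a ∈ v 2 ∧ b = c)) 0 ?_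
  refine D0.exMem (R := fun p v => ∃ a b, p = ZFSet.pair a b ∧ (a ∈ v 3 ∧ b = v 0)) 2 ?_
  refine D0.exPair (R := fun a b v => a ∈ v 4 ∧ b = v 1) 0 ?_
  exact (D0.mem 0 6).and (D0.eq 1 3)

/-- `f` is a function -/
def P2 (f : ZFSet.{u}) : Prop :=
  ∀ p ∈ f, ∀ q ∈ f, (∃ x y, p = ZFSet.pair x y ∧ ∃ x' y', q = ZFSet.pair x' y' ∧ x' = x) → p = q

theorem d0_P2 : D0.{u} fun v => P2 (v 0) := by
  refine D0.allMem (R := fun p v => ∀ q ∈ v 0,
    (∃ x y, p = ZFSet.pair x y ∧ ∃ x' y', q = ZFSet.pair x' y' ∧ x' = x) → p = q) 0 ?_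
  refine D0.allMem (R := fun q v =>
    (∃ x y, v 0 = ZFSet.pair x y ∧ ∃ x' y', q = ZFSet.pair x' y' ∧ x' = x) → v 0 = q) 1 ?_
  refine D0.imp ?_ (D0.eq 1 0)
  refine D0.exPair (R := fun x _ v => ∃ x' y', v 0 = ZFSet.pair x' y' ∧ x' = x) 1 ?_
  refine D0.exPair (R := fun x' _ v => x' = v 0) 2 ?_
  exact D0.eq 0 2

theorem X : Pool.Agent.H54.WM.T_NA.{u} := by
  rintro γ ξ hγ ⟨f, hf, hfun, honto⟩ ⟨M, j, h⟩
  have hG : HOD γ.toZFSet := HOD.ordinal γ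
  have hX : HOD ξ.toZFSet := HOD.ordinal ξ
  have hjG : j γ.toZFSet = γ.toZFSet := h.fix γ hγ
  have h1 : P1 ξ.toZFSet f γ.toZFSet := by
    intro c hc
    rw [mem_toZFSet_iff] at hc
    obtain ⟨b, hb, rfl⟩ := hc
    obtain ⟨a, ha, hab⟩ := honto b hb
    exact ⟨_, hab, _, _, rfl, mem_toZFSet_iff.2 ⟨a, ha, rfl⟩, rfl⟩
  have h2 : P2 f := by
    rintro p hp q hq ⟨x, y, rfl, x', y', rfl, rfl⟩
    obtain ⟨hx, -⟩ := ZFSet.pair_mem_prod.1 (hfun.1 hp)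
    obtain ⟨w, -, hw⟩ := hfun.2 x' hx
    rw [hw y hp, hw y' hq]
  have h1' : P1 (j ξ.toZFSet) (j f) (j γ.toZFSet) :=
    (tr h d0_P1 (sv [ξ.toZFSet, f, γ.toZFSet]) (hod_sv (by
      intro z hz
      simp only [List.mem_cons, List.not_mem_nil, or_false] at hz
      rcases hz with rfl | rfl | rfl
      exacts [hX, hf, hG]))).1 h1
  have h2' : P2 (j f) :=
    (tr h d0_P2 (sv [f]) (hod_sv (by
      intro z hz
      simp only [List.mem_cons, List.not_mem_nil, or_false] at hz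
      rcases hz with rfl
      exact hf))).1 h2
  apply h.crit
  ext c
  constructor
  · intro hc
    obtain ⟨p, hp, a, b, rfl, ha, rfl⟩ := h1' c hc
    rw [hjG] at ha
    obtain ⟨w, hw, -⟩ := hfun.2 a ha
    have hw' := (ZFSet.pair_mem_prod.1 (hfun.1 hw)).2
    have ha' := mem_toZFSet_iff.1 ha
    obtain ⟨a0, ha0, rfl⟩ := ha'
    obtain ⟨w0, hw0, rfl⟩ := mem_toZFSet_iff.1 hw'
    have h3 : ZFSet.pair a0.toZFSet w0.toZFSet ∈ j f := by
      have h4 := (j_mem h ((HOD.ordinal a0).pair (HOD.ordinal w0)) hf).1 hw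
      rw [j_pair h (HOD.ordinal a0) (HOD.ordinal w0), h.fix a0 (ha0.trans hγ),
        h.fix w0 hw0] at h4
      exact h4
    have h5 := h2' _ hp _ h3 ⟨_, _, rfl, _, _, rfl, rfl⟩
    rw [(ZFSet.pair_inj.1 h5).2]
    exact hw'
  · intro hc
    obtain ⟨b, hb, rfl⟩ := mem_toZFSet_iff.1 hc
    have h3 := (j_mem h (HOD.ordinal b) hX).1 hc
    rwa [h.fix b hb] at h3

end Pool.Agent.H34.WM.NA
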