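import Pool.Agent.H54.WM.Targets

/-!
# GEN: the elements of the class are the values of the images of functions
-/

open Ordinal Cardinal Order Set
open scoped ZFSet

universe u

namespace Pool.Agent.H34.WM.GEN

open _root_.HD Pool.Agent.H54.WM

/-- the entries of the sequence -/
noncomputable def en (w : ZFSet.{u}) (n : ℕ) : ZFSet.{u} := if n = 1 then ∅ else w

theorem d0_tupL (L : List ℕ) : ∀ i a : ℕ, D0.{u} fun v => v i = tup (L.map (en (v a))) := by
  induction L with
  | nil =>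
    intro i a
    exact D0.empty i
  | cons n L ih =>
    intro i a
    have h1 : D0.{u} fun v => ∃ x q, v i = ZFSet.pair x q ∧ (x = en (v a) n ∧
        q = tup (L.map (en (v a)))) := by
      refine D0.exPair (R := fun x q v => x = en (v a) n ∧ q = tup (L.map (en (v a)))) i ?_
      refine D0.and ?_ (ih 1 (a + 2))
      by_cases hn : n = 1
      · exact (D0.empty 0).congr fun v => by unfold en; rw [if_pos hn]
      · exact (D0.eq 0 (a + 2)).congr fun v => by unfold en; rw [if_neg hn]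
    refine h1.congr fun v => ?_
    constructor
    · intro h
      exact ⟨_, _, h, rfl, rfl⟩
    · rintro ⟨x, q, h2, rfl, rfl⟩
      exact h2

theorem d0_in (L : List ℕ) (a b : ℕ) : D0.{u} fun v => tup (L.map (en (v a))) ∈ v b := by
  refine (D0.exMem (R := fun p v => p = tup (L.map (en (v a)))) b (d0_tupL L 0 (a + 1))).congr
    fun v => ?_
  constructor
  · intro h
    exact ⟨_, h, rfl⟩
  · rintro ⟨p, hp, rfl⟩
    exact hp

theorem sv_map (k n : ℕ) (f : ℕ → ZFSet.{u}) (hn : n < k) : sv ((List.range k).map f) n = f n := by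
  unfold sv
  rw [List.getD_eq_getElem?_getD, List.getElem?_map, List.getElem?_range hn]
  rfl

theorem X (hLOS : Pool.Agent.H54.WM.T_LOS.{u}) (hTR : Pool.Agent.H54.WM.T_TR.{u})
    (hST : Pool.Agent.H54.WM.T_ST.{u}) (hIDC : Pool.Agent.H54.WM.T_IDC.{u})
    (hTSH : Pool.Agent.H54.WM.T_TSH.{u}) : Pool.Agent.H54.WM.T_GEN.{u} := by
  intro ξ κ j h π hπ t
  obtain ⟨φ, hφ⟩ := D0.ap.{u} 0 1 2
  set t' : ℕ → Tm κ := fun n =>
    if n = 1 then ct ξ h.lκ t.f t.hf else if n = 2 then idt ξ t.b t.hb else t with ht'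
  have ht0 : t' 0 = t := rfl
  have ht1 : t' 1 = ct ξ h.lκ t.f t.hf := rfl
  have ht2 : t' 2 = idt ξ t.b t.hb := rfl
  have htb : ∀ n, (t' n).b = en t.b n := by
    intro n
    rw [ht']
    unfold en
    by_cases h1 : n = 1
    · simp only [if_pos h1]
      rfl
    · simp only [if_neg h1]
      by_cases h2 : n = 2
      · simp only [if_pos h2]
        rfl
      · simp only [if_neg h2]
  have hM : ∀ x, (∃ s, π s = x) → ∀ y ∈ x, ∃ s, π s = y := by
    rintro x ⟨s, rfl⟩ y hy
    exact hπ.tra s y hy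
  have hgoal := (hφ (fun x => ∃ s, π s = x) hM (π ∘ t') fun n => ⟨t' n, rfl⟩).2
  have hidt : π (idt ξ t.b t.hb) = t.b := (hIDC ξ κ j h π hπ).1 t.b t.hb
  have hg2 : (π ∘ t') 0 = ap ((π ∘ t') 1) ((π ∘ t') 2) := by
    apply hgoal
    rw [← hST ξ κ j π hπ φ t']
    set k := max 3 (bd φ) with hk
    have hk3 : 3 ≤ k := le_max_left _ _
    have hen : ∀ (ρ : Ordinal.{u}), IsSuccLimit ρ → ∀ w ∈ HV ρ,
        tup ((List.range k).map (en w)) ∈ HV ρ := by
      intro ρ hρ w hw
      refine tup_mem_HV hρ fun x hx => ?_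
      rw [List.mem_map] at hx
      obtain ⟨n, -, rfl⟩ := hx
      unfold en
      split_ifs
      · exact empty_mem_HV hρ
      · exact hw
    have hprn : ∀ (w : ZFSet.{u}) (n : ℕ), n < k →
        pr n (tup ((List.range k).map (en w))) = en w n := by
      intro w n hn
      rw [pr_tup, sv_map k n (en w) hn]
    rw [hLOS ξ κ j h φ t' k (tup ((List.range k).map (en t.b))) (le_max_right _ _)
      (hen κ h.lκ t.b t.hb) (fun n hn => by rw [hprn t.b n hn, htb n])]
    have hts : VH ξ (TS ξ φ fun n => (t' n).f) :=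
      ⟨hTSH ξ φ _ fun n => (t' n).hf, fun w hw => HV_sub ξ (mem_TS.1 hw).1⟩
    have htr := ((hTR ξ κ j h).1 (fun w _ v => tup ((List.range k).map (en w)) ∈ v 0)
      (d0_in (List.range k) 0 2) (fun _ => TS ξ φ fun n => (t' n).f) fun _ => hts).1 (by
        intro w hw _ _
        rw [mem_TS]
        have hw' := hen ξ h.lξ w hw
        refine ⟨hw', ?_⟩
        rw [← hφ HOD HOD_tra _ fun n => hod_ap (t' n).hf (mem_HV.1 (pr_mem_HV h.lξ n hw')).2]
        show ap (t' 0).f (pr 0 _) = ap (ap (t' 1).f (pr 1 _)) (ap (t' 2).f (pr 2 _))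
        rw [hprn w 0 (by omega), hprn w 1 (by omega), hprn w 2 (by omega), ht0, ht1, ht2]
        show ap t.f w = ap (ap (cst ξ t.f) ∅) (ap (idf ξ) w)
        rw [ap_cst (empty_mem_HV h.lξ), ap_idf hw])
    exact htr t.b t.hb t.b t.hb
  have hg3 : (π ∘ t') 2 = t.b := hidt
  rw [hg3] at hg2
  exact hg2

end Pool.Agent.H34.WM.GEN
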